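import Mathlib
import Pool.Agent.Lib.MP_4223bd_al.E8

set_option autoImplicit false

open Polynomial

namespace Pool.Agent.Results.MP_4223bd_al.SimplyLaced

section Defs

variable {ι : Type} [Fintype ι] [DecidableEq ι]

/-- `M` is the Cartan matrix of a simple simply-laced root system of rank `n`: of type `A n`,
`D n` (`n ≥ 4`), `E6`, `E7` or `E8`. -/
def IsSimpleADE (n : ℕ) (M : Matrix (Fin n) (Fin n) ℤ) : Prop :=
  M = CartanMatrix.A n ∨ (4 ≤ n ∧ M = CartanMatrix.D n) ∨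
    (∃ h : n = 6, M = CartanMatrix.E₆.submatrix (Fin.cast h) (Fin.cast h)) ∨
    (∃ h : n = 7, M = CartanMatrix.E₇.submatrix (Fin.cast h) (Fin.cast h)) ∨
    (∃ h : n = 8, M = CartanMatrix.E₈.submatrix (Fin.cast h) (Fin.cast h))

/-- `A` is, after renumbering the simple roots, a block diagonal sum of Cartan matrices of types
A, D, E: the Cartan matrix of a simply-laced split semisimple Lie algebra. All roots have square
length 2, so `A` is also the Gram matrix of the simple roots, and all `d_i` are 1. -/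
def IsTypeADE (A : Matrix ι ι ℤ) : Prop :=
  ∃ (r : ℕ) (n : Fin r → ℕ) (M : ∀ s, Matrix (Fin (n s)) (Fin (n s)) ℤ)
    (e : ι ≃ Σ s : Fin r, Fin (n s)),
    (∀ s, IsSimpleADE (n s) (M s)) ∧ ∀ i j, A i j = Matrix.blockDiagonal' M (e i) (e j)

/-- For `a` in the positive cone (given by its coefficients on the simple roots),
the number (a,a)/2. -/
def halfNorm (A : Matrix ι ι ℤ) (a : ι → ℕ) : ℕ :=
  ((∑ i, ∑ j, (a i : ℤ) * A i j * (a j : ℤ)) / 2).toNat

/-- (q)_a = ∏_i ∏_{j=1}^{a_i} (1 - q^j). -/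
noncomputable def qPoch (a : ι → ℕ) : RatFunc ℚ :=
  ∏ i, ∏ j ∈ Finset.Icc 1 (a i), (1 - RatFunc.X ^ j)

/-- `J` is the family of rational functions of the problem: `J 0 = 1` and
`J a = ∑_{0 ≤ c ≤ a} q^{(c,c)/2} / (q)_{a-c} * J c`. -/
def IsJ (A : Matrix ι ι ℤ) (J : (ι → ℕ) → RatFunc ℚ) : Prop :=
  J 0 = 1 ∧
    ∀ a, J a = ∑ c ∈ Finset.Iic a, RatFunc.X ^ halfNorm A c / qPoch (a - c) * J c

/-- The coefficient sequence `c_0, ..., c_D` increases weakly up to some index `m`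
and decreases weakly afterwards. -/
def Unimodal (p : ℕ[X]) : Prop :=
  ∃ m ≤ p.natDegree, (∀ k < m, p.coeff k ≤ p.coeff (k + 1)) ∧
    ∀ k, m ≤ k → k < p.natDegree → p.coeff (k + 1) ≤ p.coeff k

end Defs

open Pool.Agent.Lib.MP_4223bd_al

variable {ι : Type} [Fintype ι] [DecidableEq ι]

lemma good_X : Good (RatFunc.X : RatFunc ℚ) := by
  refine ⟨RatFunc.X_ne_zero, fun k h => ?_⟩
  have h1 : (algebraMap ℚ[X] (RatFunc ℚ)) (1 - X ^ (k + 1)) = 0 := by
    simpa using h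
  have h2 : (1 - X ^ (k + 1) : ℚ[X]) = 0 := (RatFunc.algebraMap_injective ℚ) (by simpa using h1)
  have h3 := congrArg (fun p : ℚ[X] => p.coeff 0) h2
  simp at h3

omit [DecidableEq ι] in
lemma qPoch_eq (a : ι → ℕ) : qPoch a = poch RatFunc.X a := by
  refine Finset.prod_congr rfl fun i _ => ?_
  rw [pq, ← Finset.Ico_add_one_right_eq_Icc, Finset.prod_Ico_eq_prod_range]
  simp [add_comm]

lemma ev_inj : Function.Injective (ev (RatFunc.X : RatFunc ℚ)) := by
  have : ev (RatFunc.X : RatFunc ℚ) =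
      (algebraMap ℚ[X] (RatFunc ℚ)).comp (mapRingHom (Int.castRingHom ℚ)) :=
    Polynomial.ringHom_ext' (Subsingleton.elim _ _) (by simp)
  rw [this, RingHom.coe_comp]
  exact (RatFunc.algebraMap_injective ℚ).comp (map_injective _ Int.cast_injective)

lemma nice_simple {n : ℕ} {M : Matrix (Fin n) (Fin n) ℤ} (h : IsSimpleADE n M) :
    Nice (RatFunc.X : RatFunc ℚ) M := by
  rcases h with rfl | ⟨h1, rfl⟩ | ⟨rfl, rfl⟩ | ⟨rfl, rfl⟩ | ⟨rfl, rfl⟩
  · exact nice_A good_X _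
  · exact nice_D good_X _ h1
  · exact nice_E6 good_X ev_inj
  · exact nice_E7 good_X ev_inj
  · exact nice_E8 good_X ev_inj

lemma nice_of {A : Matrix ι ι ℤ} (hA : IsTypeADE A) : Nice (RatFunc.X : RatFunc ℚ) A := by
  obtain ⟨r, n, M, e, hM, he⟩ := hA
  exact (Nice.sigma good_X M fun s => nice_simple (hM s)).embed e.injective he

lemma isJ_iff {A : Matrix ι ι ℤ} {h : (ι → ℕ) → ℤ} (h1 : ∀ a, QF A a = 2 * h a)
    (h2 : ∀ a, a ≠ 0 → 0 < h a) (J : (ι → ℕ) → RatFunc ℚ) : IsJ A J ↔ IsSol RatFunc.X h J := by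
  have e : ∀ c, (RatFunc.X : RatFunc ℚ) ^ halfNorm A c = RatFunc.X ^ h c := by
    intro c
    have h0 : 0 ≤ h c := by
      by_cases hc : c = 0
      · have := h1 c
        rw [hc] at this ⊢
        simp only [QF, Pi.zero_apply, Nat.cast_zero, mul_zero, Finset.sum_const_zero] at this
        omega
      · exact (h2 c hc).le
    have h3 := h1 c
    rw [QF] at h3
    rw [← zpow_natCast, halfNorm, h3, Int.mul_ediv_cancel_left _ two_ne_zero,
      Int.toNat_of_nonneg h0]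
  simp only [IsJ, IsSol, e, qPoch_eq]

/-- The family `J` exists (and is unique), so the theorem below is not vacuous. -/
lemma existsUnique_J {A : Matrix ι ι ℤ} (hA : IsTypeADE A) : ∃! J, IsJ A J := by
  obtain ⟨h, h1, h2, J, hJ, -⟩ := nice_of hA
  exact ⟨J, (isJ_iff h1 h2 J).mpr hJ, fun J' hJ' =>
    funext (sol_unique good_X h2 ((isJ_iff h1 h2 J').mp hJ') hJ)⟩

lemma ev_eq (p : ℕ[X]) : ev (RatFunc.X : RatFunc ℚ) (p.map (Nat.castRingHom ℤ)) =
    algebraMap ℚ[X] (RatFunc ℚ) (p.map (Nat.castRingHom ℚ)) := by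
  have : (ev (RatFunc.X : RatFunc ℚ)).comp (mapRingHom (Nat.castRingHom ℤ)) =
      (algebraMap ℚ[X] (RatFunc ℚ)).comp (mapRingHom (Nat.castRingHom ℚ)) :=
    Polynomial.ringHom_ext' (Subsingleton.elim _ _) (by simp)
  exact RingHom.congr_fun this p

/-- In all simply-laced types the numerators have nonnegative integer coefficients and are unimodal. -/
theorem result {ι : Type} [Fintype ι] [DecidableEq ι] (A : Matrix ι ι ℤ) (hA : IsTypeADE A)
    (J : (ι → ℕ) → RatFunc ℚ) (hJ : IsJ A J) (a : ι → ℕ) :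
    ∃ p : ℕ[X], algebraMap ℚ[X] (RatFunc ℚ) (p.map (Nat.castRingHom ℚ)) = qPoch a ^ 2 * J a ∧
      Unimodal p := by
  obtain ⟨h, h1, h2, J', hJ', h3⟩ := nice_of hA
  obtain ⟨c, p, hp, hpe⟩ := h3 a
  obtain ⟨c0, c1, c2⟩ := SU_coeff hp
  have hl : p ∈ lifts (Nat.castRingHom ℤ) := by
    rw [lifts_iff_coeff_lifts]
    exact fun k => ⟨(p.coeff k).toNat, Int.toNat_of_nonneg (c0 k)⟩
  obtain ⟨p', rfl⟩ := (mem_lifts _).mp hl
  refine ⟨p', ?_, min (c.toNat / 2) p'.natDegree, min_le_right _ _, fun k hk => ?_,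
    fun k hk hk' => ?_⟩
  · rw [← ev_eq, hpe, qPoch_eq, sol_unique good_X h2 ((isJ_iff h1 h2 J).mp hJ) hJ' a]
  · have := c1 k (by omega)
    simpa [coeff_map] using this
  · have := c2 k (by omega)
    simpa [coeff_map] using this

end Pool.Agent.Results.MP_4223bd_al.SimplyLaced
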